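import Mathlib

/-!
# Trades in real Hadamard matrices that are not combinations of rectangular trades

For every Hadamard matrix `H` of order `n` and every three distinct columns of `H`, the set of
positions at which `H` differs from the matrix obtained by permuting the three columns cyclically
is a trade in `H`, and it is not the symmetric difference of any finite family of rectangular
trades in `H`.
-/

namespace Pool.Agent.Results.MP_78a590_co.CyclicTrades

open Finset

/-- A real Hadamard matrix of order `n`: entries `1` or `-1` and `H Hᵀ = n I`. -/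
def IsHadamard {n : ℕ} (H : Fin n → Fin n → ℤ) : Prop :=
  (∀ i j, H i j = 1 ∨ H i j = -1) ∧
    ∀ i j, ∑ k, H i k * H j k = if i = j then (n : ℤ) else 0

/-- `T` is a trade in `H`: some Hadamard matrix `H' ≠ H` of order `n` differs from `H` at every
position in `T` and agrees with `H` at every position outside `T`. -/
def IsTrade {n : ℕ} (H : Fin n → Fin n → ℤ) (T : Set (Fin n × Fin n)) : Prop :=
  ∃ H' : Fin n → Fin n → ℤ, IsHadamard H' ∧ H' ≠ H ∧
    (∀ i j, (i, j) ∈ T → H' i j ≠ H i j) ∧ (∀ i j, (i, j) ∉ T → H' i j = H i j)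

/-- `T` is a rectangular trade in `H`: a trade of the form `A × B`. -/
def IsRectTrade {n : ℕ} (H : Fin n → Fin n → ℤ) (T : Set (Fin n × Fin n)) : Prop :=
  IsTrade H T ∧ ∃ A B : Set (Fin n), T = A ×ˢ B

/-- `T` is the symmetric difference of a finite family `R` of rectangular trades in `H`: a position
lies in `T` exactly when it lies in an odd number of members of the family. -/
def IsRectCombination {n : ℕ} (H : Fin n → Fin n → ℤ) (T : Set (Fin n × Fin n)) : Prop :=
  ∃ (m : ℕ) (R : Fin m → Set (Fin n × Fin n)), (∀ s, IsRectTrade H (R s)) ∧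
    ∀ p, p ∈ T ↔ Odd (Nat.card {s : Fin m // p ∈ R s})

/-- The permutation of the columns with `c ↦ d ↦ e ↦ c` (for distinct `c, d, e`). -/
def cyc {n : ℕ} (c d e : Fin n) : Equiv.Perm (Fin n) := Equiv.swap c d * Equiv.swap d e

/-- The positions at which `H` differs from the matrix obtained from `H` by permuting the three
columns `c, d, e` cyclically. -/
def cycTrade {n : ℕ} (H : Fin n → Fin n → ℤ) (c d e : Fin n) : Set (Fin n × Fin n) :=
  {p | H p.1 (cyc c d e p.2) ≠ H p.1 p.2}

/-! ### Column orthogonality -/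

lemma col_orth {n : ℕ} {H : Fin n → Fin n → ℤ} (hH : IsHadamard H) {c d : Fin n} (hcd : c ≠ d) :
    ∑ r, H r c * H r d = 0 := by
  have hn : (n : ℚ) ≠ 0 := by
    have : 0 < n := lt_of_le_of_lt (Nat.zero_le _) c.2
    exact_mod_cast this.ne'
  let M : Matrix (Fin n) (Fin n) ℚ := fun i j => (H i j : ℚ)
  have h1 : M * ((n : ℚ)⁻¹ • M.transpose) = 1 := by
    ext i j
    rw [Matrix.mul_smul, Matrix.smul_apply, Matrix.mul_apply]
    have h := hH.2 i j
    have h' : ∑ k, M i k * M.transpose k j = if i = j then (n : ℚ) else 0 := by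
      have h2 : ((∑ k, H i k * H j k : ℤ) : ℚ) = ((if i = j then (n : ℤ) else 0 : ℤ) : ℚ) := by
        rw [h]
      push_cast at h2
      simpa [M, Matrix.transpose_apply] using h2
    rw [h', Matrix.one_apply]
    split_ifs with hij
    · simp [hn]
    · simp
  have h2 : ((n : ℚ)⁻¹ • M.transpose) * M = 1 := mul_eq_one_comm.mp h1
  have h3 := congrFun (congrFun h2 c) d
  rw [Matrix.smul_mul, Matrix.smul_apply, Matrix.mul_apply, Matrix.one_apply, if_neg hcd] at h3
  have h4 : ∑ k, M.transpose c k * M k d = 0 := by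
    rcases mul_eq_zero.mp h3 with h | h
    · exact absurd (inv_eq_zero.mp h) hn
    · exact h
  have h5 : ((∑ r, H r c * H r d : ℤ) : ℚ) = 0 := by
    push_cast
    simpa [M, Matrix.transpose_apply] using h4
  exact_mod_cast h5

/-! ### Rectangular trades -/

section

open Classical

/-- The number of columns in `B` in which rows `i` and `j` differ. -/
noncomputable def diffs {n : ℕ} (H : Fin n → Fin n → ℤ) (B : Set (Fin n)) (i j : Fin n) : ℕ :=
  (univ.filter (fun c => c ∈ B ∧ H i c ≠ H j c)).card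

lemma diffs_comm {n : ℕ} (H : Fin n → Fin n → ℤ) (B : Set (Fin n)) (i j : Fin n) :
    diffs H B i j = diffs H B j i := by
  unfold diffs
  congr 1
  ext c
  simp only [mem_filter, mem_univ, true_and]
  constructor <;> rintro ⟨h1, h2⟩ <;> exact ⟨h1, fun h => h2 h.symm⟩

lemma two_diffs {n : ℕ} {H : Fin n → Fin n → ℤ} (hH : IsHadamard H) {A B : Set (Fin n)}
    (hT : IsTrade H (A ×ˢ B)) {i j : Fin n} (hi : i ∈ A) (hj : j ∉ A) :
    2 * diffs H B i j = (univ.filter (fun c => c ∈ B)).card := by
  obtain ⟨H', hH', -, hin, hout⟩ := hT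
  have hij : i ≠ j := fun h => hj (h ▸ hi)
  have e1 : ∀ c, H' j c = H j c := fun c => hout j c (fun h => hj h.1)
  have e2 : ∀ c, H' i c = if c ∈ B then - H i c else H i c := by
    intro c
    split_ifs with hc
    · have h := hin i c ⟨hi, hc⟩
      rcases hH.1 i c with h1 | h1 <;> rcases hH'.1 i c with h2 | h2 <;>
        rw [h1, h2] at h <;> rw [h1, h2] <;> simp at h ⊢
    · exact hout i c (fun h => hc h.2)
  have s1 := hH.2 i j
  have s2 := hH'.2 i j
  rw [if_neg hij] at s1 s2
  have s3 : ∑ c, (H i c * H j c - H' i c * H' j c) = 0 := by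
    rw [Finset.sum_sub_distrib, s1, s2, sub_zero]
  have s4 : ∀ c, H i c * H j c - H' i c * H' j c =
      2 * (if c ∈ B then (1 : ℤ) else 0) - 4 * (if c ∈ B ∧ H i c ≠ H j c then (1 : ℤ) else 0) := by
    intro c
    rw [e1, e2]
    by_cases hc : c ∈ B
    · simp only [hc, if_true, true_and]
      rcases hH.1 i c with h1 | h1 <;> rcases hH.1 j c with h2 | h2 <;> rw [h1, h2] <;> norm_num
    · simp [hc]
  rw [Finset.sum_congr rfl (fun c _ => s4 c), Finset.sum_sub_distrib, ← Finset.mul_sum,
    ← Finset.mul_sum] at s3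
  have s5 : ∑ c : Fin n, (if c ∈ B then (1 : ℤ) else 0) =
      ((univ.filter (fun c => c ∈ B)).card : ℤ) := by
    rw [Finset.card_filter]; push_cast; rfl
  have s6 : ∑ c : Fin n, (if c ∈ B ∧ H i c ≠ H j c then (1 : ℤ) else 0) = (diffs H B i j : ℤ) := by
    unfold diffs
    rw [Finset.card_filter]; push_cast; rfl
  rw [s5, s6] at s3
  omega

/-- In every column an even number of the pairs among three rows differ. -/
lemma diffs_triangle {n : ℕ} {H : Fin n → Fin n → ℤ} (hH : IsHadamard H) (B : Set (Fin n))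
    (i j k : Fin n) : Even (diffs H B j k + diffs H B i k + diffs H B i j) := by
  unfold diffs
  rw [Finset.card_filter, Finset.card_filter, Finset.card_filter, ← Finset.sum_add_distrib,
    ← Finset.sum_add_distrib]
  apply Finset.even_sum
  intro c _
  by_cases hc : c ∈ B
  · simp only [hc, true_and]
    rcases hH.1 i c with h1 | h1 <;> rcases hH.1 j c with h2 | h2 <;> rcases hH.1 k c with h3 | h3 <;>
      rw [h1, h2, h3] <;> decide
  · simp [hc]

/-- Indicator of the rows `i` and `j` differing in column `x`, modulo `2`. -/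
noncomputable def dl {n : ℕ} (H : Fin n → Fin n → ℤ) (i j x : Fin n) : ZMod 2 :=
  if H i x ≠ H j x then 1 else 0

/-- The linear functional attached to the rows `i, j, k`. -/
noncomputable def fn {n : ℕ} (H : Fin n → Fin n → ℤ) (i j k : Fin n)
    (R : Set (Fin n × Fin n)) : ZMod 2 :=
  ∑ x, ((if (i, x) ∈ R then 1 else 0) * dl H j k x + (if (j, x) ∈ R then 1 else 0) * dl H i k x +
    (if (k, x) ∈ R then 1 else 0) * dl H i j x)

lemma sum_dl {n : ℕ} (H : Fin n → Fin n → ℤ) {R : Set (Fin n × Fin n)} {A B : Set (Fin n)}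
    (hR : R = A ×ˢ B) (r i j : Fin n) :
    ∑ x, (if (r, x) ∈ R then (1 : ZMod 2) else 0) * dl H i j x =
      if r ∈ A then (diffs H B i j : ZMod 2) else 0 := by
  have hmem : ∀ x, (r, x) ∈ R ↔ r ∈ A ∧ x ∈ B := fun x => by rw [hR]; exact Iff.rfl
  simp only [hmem]
  by_cases hr : r ∈ A
  · rw [if_pos hr]
    unfold diffs dl
    rw [Finset.card_filter]
    push_cast
    refine Finset.sum_congr rfl (fun x _ => ?_)
    by_cases hx : x ∈ B
    · simp [hr, hx]
    · simp [hx]
  · rw [if_neg hr]
    refine Finset.sum_eq_zero (fun x _ => ?_)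
    simp [hr]

lemma fn_rect {n : ℕ} {H : Fin n → Fin n → ℤ} (hH : IsHadamard H) (i j k : Fin n)
    {R : Set (Fin n × Fin n)} (hR : IsRectTrade H R) : fn H i j k R = 0 := by
  obtain ⟨hT, A, B, hRAB⟩ := hR
  unfold fn
  rw [Finset.sum_add_distrib, Finset.sum_add_distrib, sum_dl H hRAB, sum_dl H hRAB, sum_dl H hRAB]
  rw [hRAB] at hT
  clear hRAB
  have htri := diffs_triangle hH B i j k
  have hij : i ∈ A → j ∉ A → 2 * diffs H B i j = (univ.filter (fun c => c ∈ B)).card :=
    fun h1 h2 => two_diffs hH hT h1 h2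
  have hji : j ∈ A → i ∉ A → 2 * diffs H B i j = (univ.filter (fun c => c ∈ B)).card :=
    fun h1 h2 => by rw [diffs_comm]; exact two_diffs hH hT h1 h2
  have hik : i ∈ A → k ∉ A → 2 * diffs H B i k = (univ.filter (fun c => c ∈ B)).card :=
    fun h1 h2 => two_diffs hH hT h1 h2
  have hki : k ∈ A → i ∉ A → 2 * diffs H B i k = (univ.filter (fun c => c ∈ B)).card :=
    fun h1 h2 => by rw [diffs_comm]; exact two_diffs hH hT h1 h2
  have hjk : j ∈ A → k ∉ A → 2 * diffs H B j k = (univ.filter (fun c => c ∈ B)).card :=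
    fun h1 h2 => two_diffs hH hT h1 h2
  have hkj : k ∈ A → j ∉ A → 2 * diffs H B j k = (univ.filter (fun c => c ∈ B)).card :=
    fun h1 h2 => by rw [diffs_comm]; exact two_diffs hH hT h1 h2
  generalize diffs H B i j = a at *
  generalize diffs H B i k = b at *
  generalize diffs H B j k = c at *
  generalize (univ.filter (fun c => c ∈ B)).card = N at *
  have key : ∀ m : ℕ, Even m → (m : ZMod 2) = 0 := fun m hm => (ZMod.natCast_eq_zero_iff_even).2 hm
  obtain ⟨q, hq⟩ := htri
  by_cases hi : i ∈ A <;> by_cases hj : j ∈ A <;> by_cases hk : k ∈ A <;>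
    simp only [hi, hj, hk, if_true, if_false, not_true_eq_false, not_false_eq_true, forall_true_left,
      false_imp_iff, IsEmpty.forall_iff, add_zero, zero_add] at *
  · have := key (c + b + a) ⟨q, hq⟩
    push_cast at this; exact this
  · have := key (c + b) ⟨b, by omega⟩
    push_cast at this; exact this
  · have := key (c + a) ⟨a, by omega⟩
    push_cast at this; exact this
  · exact key c (by rw [Nat.even_iff]; omega)
  · have := key (b + a) ⟨a, by omega⟩
    push_cast at this; exact this
  · exact key b (by rw [Nat.even_iff]; omega)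
  · exact key a (by rw [Nat.even_iff]; omega)

lemma ind_comb {n m : ℕ} (R : Fin m → Set (Fin n × Fin n)) {T : Set (Fin n × Fin n)}
    (hT : ∀ p, p ∈ T ↔ Odd (Nat.card {s : Fin m // p ∈ R s})) (p : Fin n × Fin n) :
    (if p ∈ T then (1 : ZMod 2) else 0) = ∑ s, (if p ∈ R s then (1 : ZMod 2) else 0) := by
  have h1 : ∑ s, (if p ∈ R s then (1 : ZMod 2) else 0) =
      ((Nat.card {s : Fin m // p ∈ R s} : ℕ) : ZMod 2) := by
    rw [Nat.card_eq_fintype_card, Fintype.card_subtype, Finset.card_filter]
    push_cast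
    rfl
  rw [h1]
  by_cases h : p ∈ T
  · rw [if_pos h]
    exact ((ZMod.natCast_eq_one_iff_odd).2 ((hT p).1 h)).symm
  · rw [if_neg h]
    have : ¬ Odd (Nat.card {s : Fin m // p ∈ R s}) := fun h' => h ((hT p).2 h')
    rw [Nat.not_odd_iff_even] at this
    exact ((ZMod.natCast_eq_zero_iff_even).2 this).symm

lemma fn_comb {n : ℕ} {H : Fin n → Fin n → ℤ} (hH : IsHadamard H) (i j k : Fin n)
    {T : Set (Fin n × Fin n)} (hT : IsRectCombination H T) : fn H i j k T = 0 := by
  obtain ⟨m, R, hR, hmem⟩ := hT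
  have h : fn H i j k T = ∑ s, fn H i j k (R s) := by
    unfold fn
    rw [Finset.sum_comm]
    refine Finset.sum_congr rfl (fun x _ => ?_)
    rw [ind_comb R hmem, ind_comb R hmem, ind_comb R hmem, Finset.sum_mul, Finset.sum_mul,
      Finset.sum_mul, ← Finset.sum_add_distrib, ← Finset.sum_add_distrib]
  rw [h]
  exact Finset.sum_eq_zero (fun s _ => fn_rect hH i j k (hR s))

end

/-! ### Cyclic trades -/

lemma cyc_c {n : ℕ} {c d e : Fin n} (hcd : c ≠ d) (hce : c ≠ e) : cyc c d e c = d := by
  simp [cyc, Equiv.Perm.mul_apply, Equiv.swap_apply_of_ne_of_ne hcd hce]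

lemma cyc_d {n : ℕ} {c d e : Fin n} (hce : c ≠ e) (hde : d ≠ e) : cyc c d e d = e := by
  simp [cyc, Equiv.Perm.mul_apply, Equiv.swap_apply_of_ne_of_ne hce.symm hde.symm]

lemma cyc_e {n : ℕ} {c d e : Fin n} : cyc c d e e = c := by
  simp [cyc, Equiv.Perm.mul_apply]

lemma cyc_o {n : ℕ} {c d e x : Fin n} (h1 : x ≠ c) (h2 : x ≠ d) (h3 : x ≠ e) :
    cyc c d e x = x := by
  simp [cyc, Equiv.Perm.mul_apply, Equiv.swap_apply_of_ne_of_ne h2 h3,
    Equiv.swap_apply_of_ne_of_ne h1 h2]

/-- Existence of rows of the three types used. -/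
lemma rows {n : ℕ} {H : Fin n → Fin n → ℤ} (hH : IsHadamard H) {c d e : Fin n} (hcd : c ≠ d)
    (hce : c ≠ e) (hde : d ≠ e) :
    (∃ i, H i c = H i d ∧ H i e = H i d) ∧ (∃ j, H j c = - H j d ∧ H j e = H j d) ∧
      ∃ k, H k c = - H k d ∧ H k e = - H k d := by
  have o1 := col_orth hH hcd
  have o2 := col_orth hH hce
  have o3 := col_orth hH hde
  have hn : (0 : ℤ) < n := by
    have : 0 < n := lt_of_le_of_lt (Nat.zero_le _) c.2
    exact_mod_cast this
  have hone : ∑ _r : Fin n, (1 : ℤ) = n := by simp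
  refine ⟨?_, ?_, ?_⟩
  · have h : 0 < ∑ r, (1 + H r c * H r d + H r c * H r e + H r d * H r e) := by
      rw [Finset.sum_add_distrib, Finset.sum_add_distrib, Finset.sum_add_distrib, o1, o2, o3, hone]
      linarith
    obtain ⟨r, -, hr⟩ := Finset.exists_lt_of_sum_lt (s := univ) (f := fun _ => (0 : ℤ))
      (g := fun r => 1 + H r c * H r d + H r c * H r e + H r d * H r e) (by simpa using h)
    refine ⟨r, ?_⟩
    rcases hH.1 r c with h1 | h1 <;> rcases hH.1 r d with h2 | h2 <;> rcases hH.1 r e with h3 | h3 <;>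
      rw [h1, h2, h3] at hr <;> rw [h1, h2, h3] <;>
      first | (norm_num; done) | (exfalso; norm_num at hr; done)
  · have h : 0 < ∑ r, (1 - H r c * H r d - H r c * H r e + H r d * H r e) := by
      rw [Finset.sum_add_distrib, Finset.sum_sub_distrib, Finset.sum_sub_distrib, o1, o2, o3, hone]
      linarith
    obtain ⟨r, -, hr⟩ := Finset.exists_lt_of_sum_lt (s := univ) (f := fun _ => (0 : ℤ))
      (g := fun r => 1 - H r c * H r d - H r c * H r e + H r d * H r e) (by simpa using h)
    refine ⟨r, ?_⟩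
    rcases hH.1 r c with h1 | h1 <;> rcases hH.1 r d with h2 | h2 <;> rcases hH.1 r e with h3 | h3 <;>
      rw [h1, h2, h3] at hr <;> rw [h1, h2, h3] <;>
      first | (norm_num; done) | (exfalso; norm_num at hr; done)
  · have h : 0 < ∑ r, (1 - H r c * H r d + H r c * H r e - H r d * H r e) := by
      rw [Finset.sum_sub_distrib, Finset.sum_add_distrib, Finset.sum_sub_distrib, o1, o2, o3, hone]
      linarith
    obtain ⟨r, -, hr⟩ := Finset.exists_lt_of_sum_lt (s := univ) (f := fun _ => (0 : ℤ))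
      (g := fun r => 1 - H r c * H r d + H r c * H r e - H r d * H r e) (by simpa using h)
    refine ⟨r, ?_⟩
    rcases hH.1 r c with h1 | h1 <;> rcases hH.1 r d with h2 | h2 <;> rcases hH.1 r e with h3 | h3 <;>
      rw [h1, h2, h3] at hr <;> rw [h1, h2, h3] <;>
      first | (norm_num; done) | (exfalso; norm_num at hr; done)

lemma cycTrade_isTrade {n : ℕ} {H : Fin n → Fin n → ℤ} (hH : IsHadamard H) {c d e : Fin n}
    (hcd : c ≠ d) (hce : c ≠ e) (hde : d ≠ e) : IsTrade H (cycTrade H c d e) := by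
  refine ⟨fun r x => H r (cyc c d e x), ⟨fun i j => hH.1 i _, fun i j => ?_⟩, ?_, ?_, ?_⟩
  · rw [Equiv.sum_comp (cyc c d e) (fun x => H i x * H j x)]
    exact hH.2 i j
  · intro h
    obtain ⟨-, ⟨j, hj, -⟩, -⟩ := rows hH hcd hce hde
    have h2 := congrFun (congrFun h j) c
    simp only [cyc_c hcd hce] at h2
    rcases hH.1 j c with h1 | h1 <;> rcases hH.1 j d with h3 | h3 <;> rw [h1, h3] at hj h2 <;>
      first | (norm_num at hj; done) | (norm_num at h2; done)
  · intro i j h
    exact h
  · intro i j h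
    by_contra hne
    exact h hne

open Classical in
lemma fn_cyc {n : ℕ} {H : Fin n → Fin n → ℤ} (hH : IsHadamard H) {c d e : Fin n} (hcd : c ≠ d)
    (hce : c ≠ e) (hde : d ≠ e) {i j k : Fin n} (hi : H i c = H i d ∧ H i e = H i d)
    (hj : H j c = - H j d ∧ H j e = H j d) (hk : H k c = - H k d ∧ H k e = - H k d) :
    fn H i j k (cycTrade H c d e) = 1 := by
  unfold fn
  rw [← Finset.sum_subset (Finset.subset_univ ({c, d, e} : Finset (Fin n)))]
  · rw [Finset.sum_insert (by simp [hcd, hce]), Finset.sum_insert (by simp [hde]),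
      Finset.sum_singleton]
    simp only [cycTrade, Set.mem_ofPred_eq, cyc_c hcd hce, cyc_d hce hde, cyc_e, dl]
    rw [hi.1, hi.2, hj.1, hj.2, hk.1, hk.2]
    rcases hH.1 i d with h1 | h1 <;> rcases hH.1 j d with h2 | h2 <;> rcases hH.1 k d with h3 | h3 <;>
      rw [h1, h2, h3] <;> norm_num <;> decide
  · intro x _ hx
    simp only [Finset.mem_insert, Finset.mem_singleton, not_or] at hx
    have : cyc c d e x = x := cyc_o hx.1 hx.2.1 hx.2.2
    simp [cycTrade, this]

/-- A Hadamard matrix of order `4`. -/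
def H4 : Fin 4 → Fin 4 → ℤ :=
  ![![1, 1, 1, 1], ![1, -1, 1, -1], ![1, 1, -1, -1], ![1, -1, -1, 1]]

lemma H4_hadamard : IsHadamard H4 := by
  constructor
  · decide
  · decide

/-- **Main theorem.** For every Hadamard matrix `H` of order `n` and every three distinct columns
`c, d, e`, the set of positions at which `H` changes when these three columns are permuted
cyclically is a trade in `H` which is not the symmetric difference of any finite family of
rectangular trades in `H`. In particular, every Hadamard matrix of order greater than `2` has a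
trade that is not a combination of rectangular trades, and such matrices exist (order `4`). -/
theorem result :
    (∀ (n : ℕ) (H : Fin n → Fin n → ℤ), IsHadamard H →
      ∀ c d e : Fin n, c ≠ d → c ≠ e → d ≠ e →
        IsTrade H (cycTrade H c d e) ∧ ¬ IsRectCombination H (cycTrade H c d e)) ∧
    (∀ (n : ℕ), 2 < n → ∀ H : Fin n → Fin n → ℤ, IsHadamard H →
      ∃ T : Set (Fin n × Fin n), IsTrade H T ∧ ¬ IsRectCombination H T) ∧
    ∃ (n : ℕ) (H : Fin n → Fin n → ℤ), IsHadamard H ∧
      ∃ T : Set (Fin n × Fin n), IsTrade H T ∧ ¬ IsRectCombination H T := by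
  have main : ∀ (n : ℕ) (H : Fin n → Fin n → ℤ), IsHadamard H →
      ∀ c d e : Fin n, c ≠ d → c ≠ e → d ≠ e →
        IsTrade H (cycTrade H c d e) ∧ ¬ IsRectCombination H (cycTrade H c d e) := by
    intro n H hH c d e hcd hce hde
    refine ⟨cycTrade_isTrade hH hcd hce hde, fun hT => ?_⟩
    obtain ⟨⟨i, hi⟩, ⟨j, hj⟩, ⟨k, hk⟩⟩ := rows hH hcd hce hde
    have h1 := fn_comb hH i j k hT
    rw [fn_cyc hH hcd hce hde hi hj hk] at h1
    exact absurd h1 (by decide)
  have second : ∀ (n : ℕ), 2 < n → ∀ H : Fin n → Fin n → ℤ, IsHadamard H →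
      ∃ T : Set (Fin n × Fin n), IsTrade H T ∧ ¬ IsRectCombination H T := by
    intro n hn H hH
    exact ⟨_, main n H hH ⟨0, by omega⟩ ⟨1, by omega⟩ ⟨2, hn⟩ (by simp) (by simp) (by simp)⟩
  exact ⟨main, second, 4, H4, H4_hadamard, second 4 (by norm_num) H4 H4_hadamard⟩

end Pool.Agent.Results.MP_78a590_co.CyclicTrades
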